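import Pool.Agent.helper17.HH.SpecR

/-!
MP_07c750, project HH, block R, row RCV (basic facts on cells).
-/

open scoped Pointwise

set_option autoImplicit false

namespace Pool.Agent.HH

theorem RCV_mo (d : ℝ) (E F : Finset ℝ) (h : E ⊆ F) : cov d E ≤ cov d F :=
  Finset.card_le_card (Finset.image_subset_image h)

theorem RCV_un (d : ℝ) (E F : Finset ℝ) : cov d (E ∪ F) ≤ cov d E + cov d F := by
  unfold cov cel
  rw [Finset.image_union]
  exact Finset.card_union_le _ _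

theorem RCV_dl (d m : ℝ) (E : Finset ℝ) (hm : 0 < m) : cov (m * d) (dil m E) = cov d E := by
  have h : cel (m * d) (dil m E) = cel d E := by
    unfold cel dil
    rw [Finset.image_image]
    apply Finset.image_congr
    intro x _
    show ⌊m * x / (m * d)⌋ = ⌊x / d⌋
    rw [mul_div_mul_left _ _ hm.ne']
  unfold cov
  rw [h]

/-- a set of integers inside the union of two images -/
theorem RCV_two (S T : Finset ℤ) (f g : ℤ → ℤ) (h : ∀ k ∈ T, ∃ j ∈ S, k = f j ∨ k = g j) :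
    T.card ≤ 2 * S.card := by
  have h1 : T ⊆ S.image f ∪ S.image g := by
    intro k hk
    obtain ⟨j, hj, h2⟩ := h k hk
    rcases h2 with h2 | h2
    · exact Finset.mem_union_left _ (Finset.mem_image.mpr ⟨j, hj, h2.symm⟩)
    · exact Finset.mem_union_right _ (Finset.mem_image.mpr ⟨j, hj, h2.symm⟩)
  have h2 := Finset.card_le_card h1
  have h3 := Finset.card_union_le (S.image f) (S.image g)
  have h4 : (S.image f).card ≤ S.card := Finset.card_image_le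
  have h5 : (S.image g).card ≤ S.card := Finset.card_image_le
  omega

theorem RCV_add (a b : ℝ) : ⌊a + b⌋ = ⌊a⌋ + ⌊b⌋ ∨ ⌊a + b⌋ = ⌊a⌋ + ⌊b⌋ + 1 := by
  have h1 := Int.le_floor_add a b
  have h2 := Int.le_floor_add_floor a b
  omega

theorem RCV_sub (a b : ℝ) : ⌊a - b⌋ = ⌊a⌋ - ⌊b⌋ ∨ ⌊a - b⌋ = ⌊a⌋ - ⌊b⌋ - 1 := by
  rcases RCV_add (a - b) b with h | h
  · left
    rw [sub_add_cancel] at h
    omega
  · right
    rw [sub_add_cancel] at h
    omega

theorem RCV_ng (d : ℝ) (E : Finset ℝ) : cov d (dil (-1) E) ≤ 2 * cov d E := by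
  apply RCV_two (cel d E) _ (fun j => -j) (fun j => -j - 1)
  intro k hk
  obtain ⟨z, hz, rfl⟩ := Finset.mem_image.mp hk
  obtain ⟨x, hx, rfl⟩ := Finset.mem_image.mp hz
  refine ⟨⌊x / d⌋, Finset.mem_image.mpr ⟨x, hx, rfl⟩, ?_⟩
  have h := RCV_sub 0 (x / d)
  have e : (-1 : ℝ) * x / d = 0 - x / d := by ring
  rw [Int.floor_zero] at h
  rw [e]
  rcases h with h | h
  · left; omega
  · right; omega

theorem RCV_sh (d x : ℝ) (E : Finset ℝ) : cov d (E.image (fun y => y + x)) ≤ 2 * cov d E := by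
  apply RCV_two (cel d E) _ (fun j => j + ⌊x / d⌋) (fun j => j + ⌊x / d⌋ + 1)
  intro k hk
  obtain ⟨z, hz, rfl⟩ := Finset.mem_image.mp hk
  obtain ⟨y, hy, rfl⟩ := Finset.mem_image.mp hz
  refine ⟨⌊y / d⌋, Finset.mem_image.mpr ⟨y, hy, rfl⟩, ?_⟩
  have e : (y + x) / d = y / d + x / d := by ring
  show ⌊(y + x) / d⌋ = _ ∨ ⌊(y + x) / d⌋ = _
  rw [e]
  exact RCV_add (y / d) (x / d)

theorem RCV_co (d d' : ℝ) (E : Finset ℝ) (hd : 0 < d) (hdd : d ≤ d') : cov d' E ≤ 2 * cov d E := by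
  have hd' : 0 < d' := lt_of_lt_of_le hd hdd
  apply RCV_two (cel d E) _ (fun j => ⌊(j : ℝ) * d / d'⌋) (fun j => ⌊(j : ℝ) * d / d'⌋ + 1)
  intro k hk
  obtain ⟨x, hx, rfl⟩ := Finset.mem_image.mp hk
  refine ⟨⌊x / d⌋, Finset.mem_image.mpr ⟨x, hx, rfl⟩, ?_⟩
  show ⌊x / d'⌋ = _ ∨ ⌊x / d'⌋ = _
  have h1 : ((⌊x / d⌋ : ℤ) : ℝ) * d ≤ x := by
    have := Int.floor_le (x / d)
    rwa [le_div_iff₀ hd] at this
  have h2 : x < ((⌊x / d⌋ : ℤ) : ℝ) * d + d := by
    have := Int.lt_floor_add_one (x / d)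
    rw [div_lt_iff₀ hd] at this
    linarith
  have h3 : ((⌊x / d⌋ : ℤ) : ℝ) * d / d' ≤ x / d' := div_le_div_of_nonneg_right h1 hd'.le
  have h4 : x / d' < ((⌊x / d⌋ : ℤ) : ℝ) * d / d' + 1 := by
    rw [div_lt_iff₀ hd', add_mul, div_mul_cancel₀ _ hd'.ne']
    linarith
  have h5 := Int.floor_le_floor h3
  have h6 : ⌊x / d'⌋ ≤ ⌊((⌊x / d⌋ : ℤ) : ℝ) * d / d'⌋ + 1 := by
    have h7 := Int.floor_le_floor h4.le
    rwa [Int.floor_add_one] at h7
  omega

theorem RCV_fi (d d' : ℝ) (E : Finset ℝ) (hd : 0 < d) (hdd : d ≤ d') :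
    (cov d E : ℝ) ≤ (d' / d + 2) * cov d' E := by
  have hd' : 0 < d' := lt_of_lt_of_le hd hdd
  have h0 : cel d E ⊆ (cel d' E).biUnion
      (fun j => Finset.Icc ⌊(j : ℝ) * d' / d⌋ ⌊(j : ℝ) * d' / d + d' / d⌋) := by
    intro k hk
    obtain ⟨x, hx, rfl⟩ := Finset.mem_image.mp hk
    refine Finset.mem_biUnion.mpr ⟨⌊x / d'⌋, Finset.mem_image.mpr ⟨x, hx, rfl⟩, ?_⟩
    have h1 : ((⌊x / d'⌋ : ℤ) : ℝ) * d' ≤ x := by
      have := Int.floor_le (x / d')
      rwa [le_div_iff₀ hd'] at this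
    have h2 : x < ((⌊x / d'⌋ : ℤ) : ℝ) * d' + d' := by
      have := Int.lt_floor_add_one (x / d')
      rw [div_lt_iff₀ hd'] at this
      linarith
    rw [Finset.mem_Icc]
    constructor
    · exact Int.floor_le_floor (div_le_div_of_nonneg_right h1 hd.le)
    · rw [← add_div]
      exact Int.floor_le_floor (div_le_div_of_nonneg_right h2.le hd.le)
  have h1 : ∀ j : ℤ, ((Finset.Icc ⌊(j : ℝ) * d' / d⌋ ⌊(j : ℝ) * d' / d + d' / d⌋).card : ℝ) ≤ d' / d + 2 := by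
    intro j
    rw [Int.card_Icc]
    have h2 := RCV_add ((j : ℝ) * d' / d) (d' / d)
    have h3 : 0 ≤ ⌊d' / d⌋ := Int.floor_nonneg.mpr (div_nonneg hd'.le hd.le)
    have h4 : (((⌊(j : ℝ) * d' / d + d' / d⌋ + 1 - ⌊(j : ℝ) * d' / d⌋).toNat : ℕ) : ℤ) ≤ ⌊d' / d⌋ + 2 := by
      omega
    have h5 : (((⌊(j : ℝ) * d' / d + d' / d⌋ + 1 - ⌊(j : ℝ) * d' / d⌋).toNat : ℕ) : ℝ) ≤ (⌊d' / d⌋ : ℝ) + 2 := by
      exact_mod_cast h4
    have h6 := Int.floor_le (d' / d)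
    linarith
  have h2 : ((cel d E).card : ℝ) ≤ ∑ j ∈ cel d' E, ((Finset.Icc ⌊(j : ℝ) * d' / d⌋ ⌊(j : ℝ) * d' / d + d' / d⌋).card : ℝ) := by
    have h3 := (Finset.card_le_card h0).trans Finset.card_biUnion_le
    exact_mod_cast h3
  have h3 := h2.trans (Finset.sum_le_sum (fun j _ => h1 j))
  rw [Finset.sum_const, nsmul_eq_mul] at h3
  calc (cov d E : ℝ) ≤ ((cel d' E).card : ℝ) * (d' / d + 2) := h3
    _ = (d' / d + 2) * cov d' E := by unfold cov; ring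

theorem RCV_s1 (d : ℝ) (E F : Finset ℝ) : cov d (E - F) ≤ 2 * (cel d E - cel d F).card := by
  apply RCV_two (cel d E - cel d F) _ (fun j => j) (fun j => j - 1)
  intro k hk
  obtain ⟨z, hz, rfl⟩ := Finset.mem_image.mp hk
  obtain ⟨x, hx, y, hy, rfl⟩ := Finset.mem_sub.mp hz
  refine ⟨⌊x / d⌋ - ⌊y / d⌋, Finset.sub_mem_sub (Finset.mem_image.mpr ⟨x, hx, rfl⟩)
    (Finset.mem_image.mpr ⟨y, hy, rfl⟩), ?_⟩
  have e : (x - y) / d = x / d - y / d := by ring
  show ⌊(x - y) / d⌋ = _ ∨ ⌊(x - y) / d⌋ = _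
  rw [e]
  exact RCV_sub (x / d) (y / d)

theorem RCV_s2 (d : ℝ) (E F : Finset ℝ) : (cel d E - cel d F).card ≤ 2 * cov d (E - F) := by
  apply RCV_two (cel d (E - F)) _ (fun j => j) (fun j => j + 1)
  intro k hk
  obtain ⟨a, ha, b, hb, rfl⟩ := Finset.mem_sub.mp hk
  obtain ⟨x, hx, rfl⟩ := Finset.mem_image.mp ha
  obtain ⟨y, hy, rfl⟩ := Finset.mem_image.mp hb
  refine ⟨⌊(x - y) / d⌋, Finset.mem_image.mpr ⟨x - y, Finset.sub_mem_sub hx hy, rfl⟩, ?_⟩
  have e : (x - y) / d = x / d - y / d := by ring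
  show ⌊x / d⌋ - ⌊y / d⌋ = ⌊(x - y) / d⌋ ∨ ⌊x / d⌋ - ⌊y / d⌋ = ⌊(x - y) / d⌋ + 1
  rw [e]
  have h := RCV_sub (x / d) (y / d)
  omega

theorem RCV_a1 (d : ℝ) (E F : Finset ℝ) : cov d (E + F) ≤ 2 * (cel d E + cel d F).card := by
  apply RCV_two (cel d E + cel d F) _ (fun j => j) (fun j => j + 1)
  intro k hk
  obtain ⟨z, hz, rfl⟩ := Finset.mem_image.mp hk
  obtain ⟨x, hx, y, hy, rfl⟩ := Finset.mem_add.mp hz
  refine ⟨⌊x / d⌋ + ⌊y / d⌋, Finset.add_mem_add (Finset.mem_image.mpr ⟨x, hx, rfl⟩)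
    (Finset.mem_image.mpr ⟨y, hy, rfl⟩), ?_⟩
  have e : (x + y) / d = x / d + y / d := by ring
  show ⌊(x + y) / d⌋ = _ ∨ ⌊(x + y) / d⌋ = _
  rw [e]
  exact RCV_add (x / d) (y / d)

theorem RCV_a2 (d : ℝ) (E F : Finset ℝ) : (cel d E + cel d F).card ≤ 2 * cov d (E + F) := by
  apply RCV_two (cel d (E + F)) _ (fun j => j) (fun j => j - 1)
  intro k hk
  obtain ⟨a, ha, b, hb, rfl⟩ := Finset.mem_add.mp hk
  obtain ⟨x, hx, rfl⟩ := Finset.mem_image.mp ha
  obtain ⟨y, hy, rfl⟩ := Finset.mem_image.mp hb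
  refine ⟨⌊(x + y) / d⌋, Finset.mem_image.mpr ⟨x + y, Finset.add_mem_add hx hy, rfl⟩, ?_⟩
  have e : (x + y) / d = x / d + y / d := by ring
  show ⌊x / d⌋ + ⌊y / d⌋ = ⌊(x + y) / d⌋ ∨ ⌊x / d⌋ + ⌊y / d⌋ = ⌊(x + y) / d⌋ - 1
  rw [e]
  have h := RCV_add (x / d) (y / d)
  omega

theorem RCV_cc (d : ℝ) (E : Finset ℝ) (hd : 0 < d)
    (h : ∀ x ∈ E, ∀ y ∈ E, x ≠ y → d ≤ |x - y|) : E.card ≤ cov d E := by
  unfold cov cel
  rw [Finset.card_image_of_injOn]
  intro x hx y hy hxy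
  by_contra hne
  have h1 := h x hx y hy hne
  have h2 : |x / d - y / d| < 1 := Int.abs_sub_lt_one_of_floor_eq_floor hxy
  rw [← sub_div, abs_div, abs_of_pos hd, div_lt_one hd] at h2
  linarith

/-- one point in each cell of an index set in which two different indices differ by at least two -/
theorem RCV_pick (d : ℝ) (E : Finset ℝ) (hd : 0 < d) (S : Finset ℤ) (hS : S ⊆ cel d E)
    (h2 : ∀ a ∈ S, ∀ b ∈ S, a ≠ b → 2 ≤ |a - b|) :
    ∃ E' ⊆ E, (∀ x ∈ E', ∀ y ∈ E', x ≠ y → d ≤ |x - y|) ∧ E'.card = S.card := by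
  have h1 : ∀ k ∈ S, ∃ x ∈ E, ⌊x / d⌋ = k := by
    intro k hk
    obtain ⟨x, hx, hxk⟩ := Finset.mem_image.mp (hS hk)
    exact ⟨x, hx, hxk⟩
  choose! f hf hfk using h1
  refine ⟨S.image f, ?_, ?_, ?_⟩
  · intro x hx
    obtain ⟨k, hk, rfl⟩ := Finset.mem_image.mp hx
    exact hf k hk
  · intro x hx y hy hxy
    obtain ⟨a, ha, rfl⟩ := Finset.mem_image.mp hx
    obtain ⟨b, hb, rfl⟩ := Finset.mem_image.mp hy
    have hab : a ≠ b := fun h => hxy (by rw [h])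
    have h3 := h2 a ha b hb hab
    by_contra hlt
    push Not at hlt
    have h4 : |f a / d - f b / d| < 1 := by
      rw [← sub_div, abs_div, abs_of_pos hd, div_lt_one hd]
      exact hlt
    rw [abs_lt] at h4
    have ea := hfk a ha
    have eb := hfk b hb
    have l1 := Int.floor_le (f a / d)
    have l2 := Int.lt_floor_add_one (f a / d)
    have l3 := Int.floor_le (f b / d)
    have l4 := Int.lt_floor_add_one (f b / d)
    rw [ea] at l1 l2
    rw [eb] at l3 l4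
    have m1 : (a : ℝ) - b < 2 := by linarith [h4.2]
    have m2 : (b : ℝ) - a < 2 := by linarith [h4.1]
    have n1 : a - b < 2 := by exact_mod_cast m1
    have n2 : b - a < 2 := by exact_mod_cast m2
    have n3 : |a - b| < 2 := by
      rw [abs_lt]
      constructor <;> omega
    omega
  · apply Finset.card_image_of_injOn
    intro a ha b hb hab
    have ea := hfk a ha
    have eb := hfk b hb
    have hab' : f a = f b := hab
    rw [← ea, ← eb, hab']

theorem RCV_sp (d : ℝ) (E : Finset ℝ) (hd : 0 < d) :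
    ∃ E' ⊆ E, (∀ x ∈ E', ∀ y ∈ E', x ≠ y → d ≤ |x - y|) ∧ cov d E ≤ 2 * E'.card := by
  have h1 := Finset.card_filter_add_card_filter_not (s := cel d E) (fun k => Even k)
  by_cases hc : ((cel d E).filter (fun k => ¬ Even k)).card ≤ ((cel d E).filter (fun k => Even k)).card
  · obtain ⟨E', hE, hs, hcard⟩ := RCV_pick d E hd ((cel d E).filter (fun k => Even k))
      (Finset.filter_subset _ _) (by
        intro a ha b hb hab
        have ha' := (Finset.mem_filter.mp ha).2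
        have hb' := (Finset.mem_filter.mp hb).2
        obtain ⟨r, hr⟩ := ha'
        obtain ⟨s, hs⟩ := hb'
        rcases le_total b a with hl | hl
        · rw [abs_of_nonneg (by omega)]
          omega
        · rw [abs_of_nonpos (by omega)]
          omega)
    refine ⟨E', hE, hs, ?_⟩
    unfold cov
    omega
  · obtain ⟨E', hE, hs, hcard⟩ := RCV_pick d E hd ((cel d E).filter (fun k => ¬ Even k))
      (Finset.filter_subset _ _) (by
        intro a ha b hb hab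
        have ha' := (Finset.mem_filter.mp ha).2
        have hb' := (Finset.mem_filter.mp hb).2
        rw [Int.not_even_iff_odd] at ha' hb'
        obtain ⟨r, hr⟩ := ha'
        obtain ⟨s, hs⟩ := hb'
        rcases le_total b a with hl | hl
        · rw [abs_of_nonneg (by omega)]
          omega
        · rw [abs_of_nonpos (by omega)]
          omega)
    refine ⟨E', hE, hs, ?_⟩
    unfold cov
    omega

/-- **Row RCV** -/
theorem RCV_proof : RCV_stmt where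
  mo := RCV_mo
  un := RCV_un
  ca := fun _ _ => Finset.card_image_le
  po := fun _ _ h => Finset.card_pos.mpr (h.image _)
  dl := RCV_dl
  ng := RCV_ng
  sh := RCV_sh
  co := RCV_co
  fi := RCV_fi
  s1 := RCV_s1
  s2 := RCV_s2
  a1 := RCV_a1
  a2 := RCV_a2
  sp := RCV_sp
  cc := RCV_cc

end Pool.Agent.HH
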